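import Pool.Agent.L7h62.SD.Defs

/-!
# Project SD: certificates (S_NUL)
-/

set_option autoImplicit false

open MvPolynomial

namespace Pool.Agent.L7h97.SD

open Pool.Agent.L7h62.SD

theorem gen_hom (N m : ℕ) (i : Fin N) : (gen N m i).IsHomogeneous m := by
  unfold gen
  refine IsHomogeneous.sum _ _ _ fun j _ => ?_
  refine IsHomogeneous.C_mul ?_ _
  have h := IsHomogeneous.prod (Finset.univ : Finset (Fin m))
    (fun l => (X (j l) : MvPolynomial (Fin N) (UR N m))) (fun _ => 1)
    fun l _ => isHomogeneous_X _ _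
  simpa using h

attribute [local instance] MvPolynomial.gradedAlgebra in
theorem comp_mul {σ R : Type*} [CommRing R] (c g : MvPolynomial σ R) (m M : ℕ) (hm : m ≤ M)
    (hg : g.IsHomogeneous m) :
    homogeneousComponent M (c * g) = homogeneousComponent (M - m) c * g := by
  have h := DirectSum.coe_decompose_mul_of_right_mem_of_le
    (homogeneousSubmodule σ R) (a := c) (b := g) (i := m) (n := M) hg hm
  have h1 := decomposition.decompose'_apply (c * g) M
  have h2 := decomposition.decompose'_apply c (M - m)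
  rw [← h1, ← h2]
  exact h

theorem s_NUL : S_NUL := by
  classical
  intro N m hm F hF
  let e := sumAlgEquiv ℂ (Fin N) (Idx N m)
  let I : Ideal (MvPolynomial (Fin N ⊕ Idx N m) ℂ) :=
    Ideal.span (Set.range fun i => e.symm (gen N m i))
  -- evaluation
  have hev1 : ∀ (x : Fin N ⊕ Idx N m → ℂ) (G : UR N m),
      aeval x (e.symm (C G)) = aeval (fun p => x (Sum.inr p)) G := by
    intro x G
    have h1 : ((aeval x : MvPolynomial (Fin N ⊕ Idx N m) ℂ →ₐ[ℂ] ℂ).comp
        (e.symm : MvPolynomial (Fin N) (UR N m) →ₐ[ℂ] MvPolynomial (Fin N ⊕ Idx N m) ℂ)).comp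
        (IsScalarTower.toAlgHom ℂ (UR N m) (MvPolynomial (Fin N) (UR N m))) =
        (aeval (fun p => x (Sum.inr p)) : UR N m →ₐ[ℂ] ℂ) := by
      apply MvPolynomial.algHom_ext
      intro p
      simp only [AlgHom.comp_apply, IsScalarTower.coe_toAlgHom', aeval_X]
      show aeval x (e.symm (C (X p))) = _
      rw [sumAlgEquiv_symm_C_X, aeval_X]
    exact DFunLike.congr_fun h1 G
  have hev2 : ∀ (x : Fin N ⊕ Idx N m → ℂ) (i : Fin N),
      aeval x (e.symm (X i)) = x (Sum.inl i) := by
    intro x i
    rw [sumAlgEquiv_symm_X, aeval_X]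
  have hev3 : ∀ (x : Fin N ⊕ Idx N m → ℂ) (i : Fin N),
      aeval x (e.symm (gen N m i)) =
        ev (fun j => x (Sum.inr (i, j))) (fun l => x (Sum.inl l)) := by
    intro x i
    unfold gen ev
    rw [map_sum, map_sum]
    refine Finset.sum_congr rfl fun j _ => ?_
    rw [map_mul, map_mul, hev1, aeval_X, map_prod, map_prod]
    congr 1
    exact Finset.prod_congr rfl fun l _ => hev2 x (j l)
  have hrad : ∀ j, e.symm (C F * X j) ∈ I.radical := by
    intro j
    rw [← vanishingIdeal_zeroLocus_eq_radical (K := ℂ) I, mem_vanishingIdeal_iff]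
    intro x hx
    rw [mem_zeroLocus_iff] at hx
    rw [map_mul, map_mul, hev1, hev2]
    by_cases hy : (fun l => x (Sum.inl l)) = 0
    · have : x (Sum.inl j) = 0 := congrFun hy j
      rw [this, mul_zero]
    · have h1 := hF (fun i j => x (Sum.inr (i, j))) ⟨_, hy, fun i => by
        have h2 := hx (e.symm (gen N m i)) (Ideal.subset_span ⟨i, rfl⟩)
        rw [hev3] at h2
        exact h2⟩
      unfold at_ at h1
      rw [show (fun p => x (Sum.inr p)) = fun p : Idx N m => x (Sum.inr (p.1, p.2)) from rfl,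
        h1, zero_mul]
  choose n hn using hrad
  have hspan : ∀ j, (C F * X j : MvPolynomial (Fin N) (UR N m)) ^ (m + ∑ l, n l) ∈
      Ideal.span (Set.range (gen N m)) := by
    intro j
    have h1 : (C F * X j : MvPolynomial (Fin N) (UR N m)) ^ n j ∈
        Ideal.span (Set.range (gen N m)) := by
      have h2 := Ideal.mem_map_of_mem e.toAlgHom (hn j)
      rw [Ideal.map_span, ← Set.range_comp] at h2
      have h3 : (e.toAlgHom ∘ fun i => e.symm (gen N m i)) = gen N m := by
        funext i
        exact e.apply_symm_apply _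
      rw [h3] at h2
      have h4 : e.toAlgHom (e.symm (C F * X j) ^ n j) = (C F * X j) ^ n j := by
        rw [map_pow]
        congr 1
        exact e.apply_symm_apply _
      rw [h4] at h2
      exact h2
    have h5 : m + ∑ l, n l = n j + (m + ∑ l, n l - n j) := by
      have := Finset.single_le_sum (f := n) (fun i _ => Nat.zero_le _) (Finset.mem_univ j)
      omega
    rw [h5, pow_add]
    exact Ideal.mul_mem_right _ _ h1
  refine ⟨m + ∑ l, n l, Nat.le_add_right _ _, ?_⟩
  have hc : ∀ j, ∃ c : Fin N → MvPolynomial (Fin N) (UR N m), ∑ i, c i * gen N m i =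
      (C F * X j : MvPolynomial (Fin N) (UR N m)) ^ (m + ∑ l, n l) := fun j =>
    Ideal.mem_span_range_iff_exists_fun.1 (hspan j)
  choose c hc using hc
  refine ⟨fun j i => homogeneousComponent (m + ∑ l, n l - m) (c j i), fun j i =>
    homogeneousComponent_isHomogeneous _ _, fun j => ?_⟩
  have h1 : (C F * X j : MvPolynomial (Fin N) (UR N m)) ^ (m + ∑ l, n l) =
      C (F ^ (m + ∑ l, n l)) * X j ^ (m + ∑ l, n l) := by
    rw [mul_pow, map_pow]
  have h2 : (C (F ^ (m + ∑ l, n l)) * X j ^ (m + ∑ l, n l) :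
      MvPolynomial (Fin N) (UR N m)).IsHomogeneous (m + ∑ l, n l) :=
    IsHomogeneous.C_mul (isHomogeneous_X_pow _ _) _
  rw [← homogeneousComponent_eq_self h2, ← h1, ← hc j, map_sum]
  refine Finset.sum_congr rfl fun i _ => ?_
  exact comp_mul _ _ _ _ (Nat.le_add_right _ _) (gen_hom N m i)

end Pool.Agent.L7h97.SD
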