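import Pool.Agent.L7h62.SD.Defs2

/-!
# Project SD: the stabilizer of a tuple of forms without common zeros (S_LIE)
-/

set_option autoImplicit false

namespace Pool.Agent.L7h97.SD

open Pool.Agent.L7h62.SD

theorem ev_smul {N m : ℕ} (a : (Fin m → Fin N) → ℂ) (t : ℂ) (x : Fin N → ℂ) :
    ev a (t • x) = t ^ m * ev a x := by
  unfold ev
  rw [Finset.mul_sum]
  refine Finset.sum_congr rfl fun j _ => ?_
  have : ∏ l, (t • x) (j l) = t ^ m * ∏ l, x (j l) := by
    simp only [Pi.smul_apply, smul_eq_mul, Finset.prod_mul_distrib, Finset.prod_const,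
      Finset.card_univ, Fintype.card_fin]
  rw [this]
  ring

theorem continuous_ev {N m : ℕ} (a : (Fin m → Fin N) → ℂ) : Continuous (fun x => ev a x) := by
  unfold ev
  fun_prop

/-- The lower bound for the values of forms without common zeros. -/
theorem lower {N m : ℕ} (hm : 1 ≤ m) (b : Fin N → (Fin m → Fin N) → ℂ) (hb : ¬ HasZero b) :
    ∃ c : ℝ, 0 < c ∧ ∀ y : Fin N → ℂ, c * ‖y‖ ^ m ≤ ‖fun i => ev (b i) y‖ := by
  have hcont : Continuous (fun y : Fin N → ℂ => ‖fun i => ev (b i) y‖) :=
    (continuous_pi fun i => continuous_ev (b i)).norm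
  have hcomp : IsCompact (Metric.sphere (0 : Fin N → ℂ) 1) := isCompact_sphere 0 1
  rcases (Metric.sphere (0 : Fin N → ℂ) 1).eq_empty_or_nonempty with he | hne
  · refine ⟨1, one_pos, fun y => ?_⟩
    by_cases hy : y = 0
    · subst hy
      rw [norm_zero, zero_pow (by omega), mul_zero]
      exact norm_nonneg _
    · exfalso
      have : ((‖y‖ : ℂ)⁻¹ • y) ∈ Metric.sphere (0 : Fin N → ℂ) 1 := by
        rw [mem_sphere_zero_iff_norm, norm_smul, norm_inv, Complex.norm_real, norm_norm,
          inv_mul_cancel₀ (norm_ne_zero_iff.2 hy)]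
      rw [he] at this
      exact this
  · obtain ⟨y0, hy0, hmin⟩ := hcomp.exists_isMinOn hne hcont.continuousOn
    have hy0' : y0 ≠ 0 := by
      rintro rfl
      rw [mem_sphere_zero_iff_norm, norm_zero] at hy0
      exact zero_ne_one hy0
    have hpos : 0 < ‖fun i => ev (b i) y0‖ := by
      rw [norm_pos_iff]
      intro h
      exact hb ⟨y0, hy0', fun i => congrFun h i⟩
    refine ⟨_, hpos, fun y => ?_⟩
    by_cases hy : y = 0
    · subst hy
      rw [norm_zero, zero_pow (by omega), mul_zero]
      exact norm_nonneg _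
    · have hn : (‖y‖ : ℂ) ≠ 0 := by
        rw [Ne, Complex.ofReal_eq_zero]
        exact norm_ne_zero_iff.2 hy
      have hmem : ((‖y‖ : ℂ)⁻¹ • y) ∈ Metric.sphere (0 : Fin N → ℂ) 1 := by
        rw [mem_sphere_zero_iff_norm, norm_smul, norm_inv, Complex.norm_real, norm_norm,
          inv_mul_cancel₀ (norm_ne_zero_iff.2 hy)]
      have h1 := hmin hmem
      simp only [Set.mem_ofPred_eq] at h1
      have h2 : (fun i => ev (b i) y) = (‖y‖ : ℂ) ^ m • fun i => ev (b i) ((‖y‖ : ℂ)⁻¹ • y) := by
        funext i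
        rw [Pi.smul_apply, smul_eq_mul, ← ev_smul, smul_smul, mul_inv_cancel₀ hn, one_smul]
      rw [h2, norm_smul, norm_pow, Complex.norm_real, norm_norm, mul_comm]
      exact mul_le_mul_of_nonneg_left h1 (by positivity)

/-- The reindexing. -/
theorem reidx {N m : ℕ} (a : (Fin m → Fin N) → ℂ) (B : Matrix (Fin N) (Fin N) ℂ)
    (y : Fin N → ℂ) (l : Fin m) :
    ∑ j, a j * ((∏ l' ∈ Finset.univ.erase l, y (j l')) * ∑ s, B (j l) s * y s) =
      ∑ k : Fin m → Fin N, (∑ s, a (Function.update k l s) * B s (k l)) * ∏ l', y (k l') := by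
  have h1 : ∀ j : Fin m → Fin N,
      a j * ((∏ l' ∈ Finset.univ.erase l, y (j l')) * ∑ s, B (j l) s * y s) =
      ∑ s, a j * ((∏ l' ∈ Finset.univ.erase l, y (j l')) * (B (j l) s * y s)) := by
    intro j
    rw [Finset.mul_sum, Finset.mul_sum]
  rw [Finset.sum_congr rfl fun j _ => h1 j]
  have h2 : ∀ k : Fin m → Fin N,
      (∑ s, a (Function.update k l s) * B s (k l)) * ∏ l', y (k l') =
      ∑ s, a (Function.update k l s) * B s (k l) * ∏ l', y (k l') := by
    intro k
    rw [Finset.sum_mul]
  rw [Finset.sum_congr rfl fun k _ => h2 k]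
  rw [← Finset.sum_product', ← Finset.sum_product']
  refine Finset.sum_bij' (fun p _ => (Function.update p.1 l p.2, p.1 l))
    (fun p _ => (Function.update p.1 l p.2, p.1 l)) (fun _ _ => Finset.mem_univ _)
    (fun _ _ => Finset.mem_univ _) ?_ ?_ ?_
  · rintro ⟨j, s⟩ _
    simp
  · rintro ⟨j, s⟩ _
    simp
  · rintro ⟨j, s⟩ _
    simp only [Function.update_idem, Function.update_eq_self, Function.update_self]
    rw [← Finset.mul_prod_erase Finset.univ (fun l' => y (Function.update j l s l'))
      (Finset.mem_univ l)]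
    simp only [Function.update_self]
    have h3 : ∏ l' ∈ Finset.univ.erase l, y (Function.update j l s l') =
        ∏ l' ∈ Finset.univ.erase l, y (j l') := by
      refine Finset.prod_congr rfl fun l' hl' => ?_
      rw [Function.update_of_ne (Finset.ne_of_mem_erase hl')]
    rw [h3]
    ring

theorem s_LIE : S_LIE := by
  intro N m hm b hb B hB
  obtain ⟨c, hc, hlow⟩ := lower hm b hb
  let L : (Fin N → ℂ) →L[ℂ] (Fin N → ℂ) := LinearMap.toContinuousLinearMap (Matrix.toLin' B)
  have hL : ∀ x i, L x i = ∑ s, B i s * x s := by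
    intro x i
    rfl
  have hder : ∀ (x : Fin N → ℂ) (t : ℂ),
      HasDerivAt (fun u : ℂ => NormedSpace.exp (u • L) x) (L (NormedSpace.exp (t • L) x)) t := by
    intro x t
    have h1 := (hasDerivAt_exp_smul_const' (𝕂 := ℂ) L t).clm_apply (hasDerivAt_const t x)
    simpa using h1
  have hconst : ∀ (x : Fin N → ℂ) (i : Fin N) (t : ℂ),
      ev (b i) (NormedSpace.exp (t • L) x) = ev (b i) x := by
    intro x i t
    have hd : ∀ u : ℂ, HasDerivAt (fun u : ℂ => ev (b i) (NormedSpace.exp (u • L) x)) 0 u := by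
      intro u
      have hco : ∀ s : Fin N, HasDerivAt (fun u : ℂ => NormedSpace.exp (u • L) x s)
          (L (NormedSpace.exp (u • L) x) s) u := fun s => (hasDerivAt_pi.1 (hder x u)) s
      have h2 : HasDerivAt (fun u : ℂ => ev (b i) (NormedSpace.exp (u • L) x))
          (∑ j : Fin m → Fin N, b i j * ∑ l, (∏ l' ∈ Finset.univ.erase l,
            (NormedSpace.exp (u • L) x) (j l')) • (L (NormedSpace.exp (u • L) x)) (j l)) u := by
        unfold ev
        refine HasDerivAt.fun_sum fun j _ => ?_
        refine HasDerivAt.const_mul _ ?_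
        exact HasDerivAt.fun_finsetProd fun l _ => hco (j l)
      convert h2 using 1
      set y := NormedSpace.exp (u • L) x with hy
      simp only [hL, smul_eq_mul]
      have h3 : ∀ j : Fin m → Fin N, b i j * ∑ l, ((∏ l' ∈ Finset.univ.erase l, y (j l')) *
          ∑ s, B (j l) s * y s) =
          ∑ l, b i j * ((∏ l' ∈ Finset.univ.erase l, y (j l')) * ∑ s, B (j l) s * y s) := by
        intro j
        rw [Finset.mul_sum]
      rw [Finset.sum_congr rfl fun j _ => h3 j, Finset.sum_comm]
      rw [Finset.sum_congr rfl fun l _ => reidx (b i) B y l, Finset.sum_comm]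
      symm
      refine Finset.sum_eq_zero fun k _ => ?_
      rw [← Finset.sum_mul, hB i k, zero_mul]
    have h4 := is_const_of_deriv_eq_zero (𝕜 := ℂ)
      (f := fun u : ℂ => ev (b i) (NormedSpace.exp (u • L) x))
      (fun u => (hd u).differentiableAt) (fun u => (hd u).deriv) t 0
    have h5 : NormedSpace.exp ((0 : ℂ) • L) x = x := by
      rw [zero_smul ℂ L, NormedSpace.exp_zero]
      rfl
    rw [h4, h5]
  have hL0 : ∀ x, L x = 0 := by
    intro x
    have hbd : Bornology.IsBounded (Set.range fun u : ℂ => NormedSpace.exp (u • L) x) := by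
      rw [isBounded_iff_forall_norm_le]
      refine ⟨max 1 (‖fun i => ev (b i) x‖ / c), ?_⟩
      rintro _ ⟨u, rfl⟩
      by_contra hcon
      push Not at hcon
      rw [max_lt_iff] at hcon
      obtain ⟨h1, h2⟩ := hcon
      have h3 := hlow (NormedSpace.exp (u • L) x)
      have h5 : (fun i => ev (b i) (NormedSpace.exp (u • L) x)) = fun i => ev (b i) x := by
        funext i
        exact hconst x i u
      rw [h5] at h3
      rw [div_lt_iff₀ hc] at h2
      have h6 : ‖NormedSpace.exp (u • L) x‖ ≤ ‖NormedSpace.exp (u • L) x‖ ^ m := by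
        calc ‖NormedSpace.exp (u • L) x‖ = ‖NormedSpace.exp (u • L) x‖ ^ 1 := (pow_one _).symm
          _ ≤ _ := pow_le_pow_right₀ h1.le hm
      have h7 := mul_le_mul_of_nonneg_left h6 hc.le
      linarith
    have hdiff : Differentiable ℂ fun u : ℂ => NormedSpace.exp (u • L) x :=
      fun u => (hder x u).differentiableAt
    have hcst : (fun u : ℂ => NormedSpace.exp (u • L) x) = fun _ => x := by
      funext u
      rw [hdiff.apply_eq_apply_of_bounded hbd u 0]
      rw [zero_smul ℂ L, NormedSpace.exp_zero]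
      rfl
    have h1 := hder x 0
    rw [hcst] at h1
    have h2 := h1.unique (hasDerivAt_const (0 : ℂ) x)
    rw [zero_smul ℂ L, NormedSpace.exp_zero] at h2
    exact h2
  have hM : Matrix.toLin' B = 0 := by
    ext1 i
    apply LinearMap.ext
    intro x
    exact hL0 _
  exact (LinearEquiv.map_eq_zero_iff Matrix.toLin').1 hM

end Pool.Agent.L7h97.SD
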